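import Pool.Agent.Q240.CD.Stm3

set_option autoImplicit false

/-!
# Project CD of helper240, job CD-Enum (helper177): the increasing enumeration of the ordinates
-/

open Polynomial Filter Topology Finset MeasureTheory
open Pool.Agent.H24R2.JP (XX)

namespace Pool.Agent.Q177.CD2

open Pool.Agent.Q240.CD

/-- an infinite set of reals with finitely many elements below every bound is enumerated by a strictly
increasing sequence -/
theorem exists_enum (G : Set ℝ) (hinf : G.Infinite) (hfin : ∀ T : ℝ, (G ∩ Set.Iic T).Finite) :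
    ∃ γ : ℕ → ℝ, StrictMono γ ∧ ∀ t, t ∈ G ↔ ∃ n, γ n = t := by
  have hmin : ∀ S : Set ℝ, S ⊆ G → S.Nonempty → ∃ m ∈ S, ∀ s ∈ S, m ≤ s := by
    rintro S hS ⟨s0, hs0⟩
    have h1 : (S ∩ Set.Iic s0).Finite := (hfin s0).subset (Set.inter_subset_inter_left _ hS)
    obtain ⟨m, hm, hm2⟩ := Set.exists_min_image _ id h1 ⟨s0, hs0, Set.mem_Iic.2 le_rfl⟩
    refine ⟨m, hm.1, fun s hs => ?_⟩
    rcases le_total s s0 with h | h
    · exact hm2 s ⟨hs, h⟩
    · exact (hm.2 : m ≤ s0).trans h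
  have hnext : ∀ x : ℝ, ∃ m, m ∈ G ∧ x < m ∧ ∀ s ∈ G, x < s → m ≤ s := by
    intro x
    have h1 : (G ∩ Set.Ioi x).Nonempty := by
      by_contra hcon
      rw [Set.not_nonempty_iff_eq_empty] at hcon
      apply hinf
      refine (hfin x).subset fun s hs => ⟨hs, ?_⟩
      by_contra h2
      have : s ∈ G ∩ Set.Ioi x := ⟨hs, Set.mem_Ioi.2 (lt_of_not_ge fun h => h2 h)⟩
      rw [hcon] at this
      exact this
    obtain ⟨m, hm, hm2⟩ := hmin _ Set.inter_subset_left h1
    exact ⟨m, hm.1, hm.2, fun s hs hxs => hm2 s ⟨hs, hxs⟩⟩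
  choose nx hnx1 hnx2 hnx3 using hnext
  obtain ⟨m0, hm0, hm0'⟩ := hmin G subset_rfl hinf.nonempty
  let γ : ℕ → ℝ := fun n => Nat.rec m0 (fun _ x => nx x) n
  have hγ0 : γ 0 = m0 := rfl
  have hγs : ∀ n, γ (n + 1) = nx (γ n) := fun n => rfl
  have hmono : StrictMono γ := strictMono_nat_of_lt_succ fun n => by rw [hγs]; exact hnx2 _
  have hG : ∀ n, γ n ∈ G := by
    intro n
    cases n with
    | zero => exact hm0
    | succ n => rw [hγs]; exact hnx1 _
  refine ⟨γ, hmono, fun t => ⟨fun ht => ?_, ?_⟩⟩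
  · refine Classical.by_contradiction fun hcon => ?_
    push Not at hcon
    have hlt : ∀ n, γ n < t := by
      intro n
      induction n with
      | zero => exact lt_of_le_of_ne (hm0' t ht) (hcon 0)
      | succ n ih => exact lt_of_le_of_ne (by rw [hγs]; exact hnx3 _ t ht ih) (hcon (n + 1))
    have : (Set.range γ).Infinite := Set.infinite_range_of_injective hmono.injective
    apply this
    refine (hfin t).subset ?_
    rintro _ ⟨n, rfl⟩
    exact ⟨hG n, (hlt n).le⟩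
  · rintro ⟨n, rfl⟩
    exact hG n

theorem conj_half (t : ℝ) : (starRingEnd ℂ) (1 / 2 + Complex.I * (t : ℂ)) = 1 / 2 + Complex.I * ((-t : ℝ) : ℂ) := by
  apply Complex.ext <;> simp

theorem isZ_neg {t : ℝ} (h : Y23.IsZ (1 / 2 + Complex.I * (t : ℂ))) :
    Y23.IsZ (1 / 2 + Complex.I * ((-t : ℝ) : ℂ)) := by
  rw [← conj_half]
  exact Y23.isZ_conj h

theorem mu_neg {t : ℝ} (h : Y23.IsZ (1 / 2 + Complex.I * (t : ℂ))) :
    Y23.mu (1 / 2 + Complex.I * ((-t : ℝ) : ℂ)) = Y23.mu (1 / 2 + Complex.I * (t : ℂ)) := by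
  rw [← conj_half]
  exact Y23.mu_conj h

theorem zp_of (ρ : Y23.Zt) (t : ℝ) (h : (ρ : ℂ) = 1 / 2 + Complex.I * (t : ℂ)) : zp ρ = (t : ℂ) := by
  unfold zp
  rw [h]
  have : -Complex.I * (1 / 2 + Complex.I * (t : ℂ) - 1 / 2) = -(Complex.I * Complex.I) * t := by ring
  rw [this, Complex.I_mul_I]
  ring

/-- the ordinates -/
def Gm : Set ℝ := {t | 0 < t ∧ Y23.IsZ (1 / 2 + Complex.I * (t : ℂ))}

theorem Gm_fin (T : ℝ) : (Gm ∩ Set.Iic T).Finite := by
  refine ((Y23.isZ_finite T).image Complex.im).subset ?_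
  rintro t ⟨⟨h1, h2⟩, h3⟩
  refine ⟨1 / 2 + Complex.I * (t : ℂ), ⟨h2, ?_⟩, by simp⟩
  have : (1 / 2 + Complex.I * (t : ℂ) : ℂ).im = t := by simp
  rw [this, abs_of_pos h1]
  exact h3

theorem Sp_zero (a : ℝ) (n : ℕ) : Sp a n 0 = 1 := by
  unfold Sp
  simp

theorem rho_eq (hRH : ∀ ρ : Y23.Zt, (ρ : ℂ).re = 1 / 2) (ρ : Y23.Zt) :
    (ρ : ℂ) = 1 / 2 + Complex.I * (((ρ : ℂ).im : ℝ) : ℂ) := by
  apply Complex.ext
  · simp [hRH ρ]
  · simp

theorem abs_mem (hNR : S_NoReal) (hRH : ∀ ρ : Y23.Zt, (ρ : ℂ).re = 1 / 2) (ρ : Y23.Zt) :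
    |(ρ : ℂ).im| ∈ Gm := by
  have h0 := hNR ρ
  have h1 : Y23.IsZ (1 / 2 + Complex.I * (((ρ : ℂ).im : ℝ) : ℂ)) := by
    rw [← rho_eq hRH ρ]
    exact ρ.2
  refine ⟨abs_pos.2 h0, ?_⟩
  rcases abs_choice (ρ : ℂ).im with h | h
  · rw [h]; exact h1
  · rw [h]; exact isZ_neg h1

theorem Gm_inf (hPos : S_PosZ) (hRep : S_RepInv) (hNR : S_NoReal)
    (hRH : ∀ ρ : Y23.Zt, (ρ : ℂ).re = 1 / 2) : Gm.Infinite := by
  intro hfin
  set F := hfin.toFinset with hF
  set P : ℂ[X] := ∏ t ∈ F, (X ^ 2 - C ((t : ℂ) ^ 2)) with hP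
  have hdeg : P.natDegree ≤ 2 * F.card := by
    refine (natDegree_prod_le _ _).trans ?_
    refine (Finset.sum_le_sum (g := fun _ => 2) fun t _ => ?_).trans ?_
    · rw [natDegree_X_pow_sub_C]
    · rw [Finset.sum_const, smul_eq_mul, mul_comm]
  obtain ⟨f, hf, hf2⟩ := hRep 1 F.card P one_pos hdeg
  have hev : ∀ z : ℂ, P.eval z = ∏ t ∈ F, (z ^ 2 - (t : ℂ) ^ 2) := by
    intro z
    rw [hP, eval_prod]
    refine Finset.prod_congr rfl fun t _ => ?_
    simp
  have hQ : Y23.QQ f = 0 := by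
    unfold Y23.QQ
    have h0 : ∀ ρ : Y23.Zt, (Y23.mu ρ : ℝ) * (Y23.GG f f ((ρ : ℂ) - 1 / 2)).re = 0 := by
      intro ρ
      have h1 : (ρ : ℂ) - 1 / 2 = Complex.I * (((ρ : ℂ).im : ℝ) : ℂ) := by
        conv_lhs => rw [rho_eq hRH ρ]
        ring
      have h2 : P.eval (((ρ : ℂ).im : ℝ) : ℂ) = 0 := by
        rw [hev]
        have h3 : |(ρ : ℂ).im| ∈ F := by
          rw [hF, Set.Finite.mem_toFinset]
          exact abs_mem hNR hRH ρ
        refine Finset.prod_eq_zero h3 ?_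
        rw [← Complex.ofReal_pow, ← Complex.ofReal_pow, sq_abs, sub_self]
      have h3 : Y23.TT f ((ρ : ℂ) - 1 / 2) = 0 := by
        rw [h1, hf2, h2, zero_mul]
      unfold Y23.GG
      rw [h3, zero_mul, Complex.zero_re, mul_zero]
    simp only [h0, tsum_zero]
  have h1 := hPos hRH 1 (F.card : ℕ) f one_pos hf hQ.le (Complex.I * 0)
  rw [hf2, Sp_zero, mul_one, hev] at h1
  rw [Finset.prod_eq_zero_iff] at h1
  obtain ⟨t, ht, ht2⟩ := h1
  rw [hF, Set.Finite.mem_toFinset] at ht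
  have h3 : (t : ℂ) ^ 2 = 0 := by
    have : (0 : ℂ) ^ 2 - (t : ℂ) ^ 2 = 0 := ht2
    linear_combination -this
  have h4 : t = 0 := by
    have := pow_eq_zero_iff (two_ne_zero) |>.1 h3
    exact_mod_cast this
  have := ht.1
  linarith

/-- **Enum** -/
theorem enum (hPos : S_PosZ) (hRep : S_RepInv) (hSum : S_SumZ) (hNR : S_NoReal) : S_Enum := by
  intro hRH
  obtain ⟨γ, hmono, hγ⟩ := exists_enum Gm (Gm_inf hPos hRep hNR hRH) Gm_fin
  have hγG : ∀ j, γ j ∈ Gm := fun j => (hγ _).2 ⟨j, rfl⟩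
  have hγ0 : ∀ j, 0 < γ j := fun j => (hγG j).1
  have hγZ : ∀ j, Y23.IsZ (1 / 2 + Complex.I * (γ j : ℂ)) := fun j => (hγG j).2
  -- the zeros
  let sg : Bool → ℝ := fun b => if b then 1 else -1
  have hsZ : ∀ (j : ℕ) (b : Bool), Y23.IsZ (1 / 2 + Complex.I * ((sg b * γ j : ℝ) : ℂ)) := by
    intro j b
    cases b
    · have e : sg false * γ j = -γ j := by simp [sg]
      rw [e]
      exact isZ_neg (hγZ j)
    · have e : sg true * γ j = γ j := by simp [sg]
      rw [e]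
      exact hγZ j
  let e : ℕ × Bool → Y23.Zt := fun p => ⟨1 / 2 + Complex.I * ((sg p.2 * γ p.1 : ℝ) : ℂ), hsZ p.1 p.2⟩
  have he : ∀ p, ((e p : Y23.Zt) : ℂ) = 1 / 2 + Complex.I * ((sg p.2 * γ p.1 : ℝ) : ℂ) := fun p => rfl
  have heim : ∀ p, ((e p : Y23.Zt) : ℂ).im = sg p.2 * γ p.1 := by
    intro p
    rw [he]
    simp
  have hinj : Function.Injective e := by
    rintro ⟨j, b⟩ ⟨j', b'⟩ h
    have h1 : sg b * γ j = sg b' * γ j' := by
      have := congrArg (fun ρ : Y23.Zt => (ρ : ℂ).im) h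
      simp only [heim] at this
      exact this
    have h2 := hγ0 j
    have h3 := hγ0 j'
    have hb : b = b' := by
      cases b <;> cases b' <;> simp only [sg] at h1 <;> first | rfl | (exfalso; simp at h1; linarith)
    subst hb
    have h4 : γ j = γ j' := by
      cases b <;> simp [sg] at h1 <;> exact h1
    rw [hmono.injective h4]
  have hsurj : Function.Surjective e := by
    intro ρ
    obtain ⟨j, hj⟩ := (hγ _).1 (abs_mem hNR hRH ρ)
    rcases abs_choice (ρ : ℂ).im with h | h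
    · refine ⟨(j, true), Subtype.ext ?_⟩
      rw [he]
      conv_rhs => rw [rho_eq hRH ρ]
      have : sg true * γ j = (ρ : ℂ).im := by
        simp only [sg]
        rw [hj, h]
        simp
      simp only [this]
    · refine ⟨(j, false), Subtype.ext ?_⟩
      rw [he]
      conv_rhs => rw [rho_eq hRH ρ]
      have : sg false * γ j = (ρ : ℂ).im := by
        simp only [sg]
        rw [hj, h]
        simp
      simp only [this]
  let E := Equiv.ofBijective e ⟨hinj, hsurj⟩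
  have hmu : ∀ p, Y23.mu (e p : ℂ) = mz (γ p.1 : ℂ) := by
    rintro ⟨j, b⟩
    rw [he]
    unfold mz
    cases b
    · have e1 : sg false * γ j = -γ j := by simp [sg]
      simp only [e1]
      exact mu_neg (hγZ j)
    · have e1 : sg true * γ j = γ j := by simp [sg]
      simp only [e1]
  have hzp : ∀ p, zp (e p) = ((sg p.2 * γ p.1 : ℝ) : ℂ) := fun p => zp_of _ _ (he p)
  refine ⟨γ, hmono, hγ0 0, ?_, ?_, ?_, ?_⟩
  · intro z
    have h0 := Y23.isZ_iff (1 / 2 + Complex.I * z)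
    rw [add_sub_cancel_left] at h0
    rw [← h0]
    constructor
    · intro h
      let ρ : Y23.Zt := ⟨1 / 2 + Complex.I * z, h⟩
      obtain ⟨⟨j, b⟩, hp⟩ := hsurj ρ
      have h1 := hzp (j, b)
      rw [hp] at h1
      have h2 : zp ρ = z := by
        unfold zp
        change -Complex.I * (1 / 2 + Complex.I * z - 1 / 2) = z
        have : -Complex.I * (1 / 2 + Complex.I * z - 1 / 2) = -(Complex.I * Complex.I) * z := by ring
        rw [this, Complex.I_mul_I]
        ring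
      rw [h2] at h1
      refine ⟨j, ?_⟩
      cases b
      · right
        rw [h1]
        simp [sg]
      · left
        rw [h1]
        simp [sg]
    · rintro ⟨j, h | h⟩
      · rw [h]
        exact hγZ j
      · have := isZ_neg (hγZ j)
        rw [h]
        push_cast at this
        exact this
  · intro j
    exact Y23.mu_pos (hγZ j)
  · have h1 := (E.summable_iff).2 hSum.1
    have h2 : Function.Injective (fun j : ℕ => (j, true)) := fun a b h => (Prod.mk.inj h).1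
    have h3 := h1.comp_injective h2
    refine Summable.of_nonneg_of_le (fun j => by have := hγ0 j; positivity) (fun j => ?_)
      (h3.mul_left ((1 + 1 / γ 0) ^ (7 / 4 : ℝ)))
    simp only [Function.comp]
    have e1 : ((E (j, true) : Y23.Zt)) = e (j, true) := rfl
    rw [e1, hmu, hzp]
    have e2 : sg true * γ j = γ j := by simp [sg]
    simp only [e2]
    have hj := hγ0 j
    have hj0 : γ 0 ≤ γ j := hmono.monotone (Nat.zero_le j)
    have h00 := hγ0 0
    rw [Complex.norm_real, Real.norm_eq_abs, abs_of_pos hj]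
    have e3 : (γ j ^ 2) ^ (7 / 8 : ℝ) = γ j ^ (7 / 4 : ℝ) := by
      rw [← Real.rpow_natCast, ← Real.rpow_mul hj.le]
      norm_num
    rw [e3]
    have h4 : 1 + γ j ≤ (1 + 1 / γ 0) * γ j := by
      have : 1 ≤ 1 / γ 0 * γ j := by
        rw [one_div, ← div_eq_inv_mul, le_div_iff₀ h00]
        linarith
      linarith
    have h5 : (1 + γ j) ^ (7 / 4 : ℝ) ≤ (1 + 1 / γ 0) ^ (7 / 4 : ℝ) * γ j ^ (7 / 4 : ℝ) := by
      rw [← Real.mul_rpow (by positivity) hj.le]
      exact Real.rpow_le_rpow (by positivity) h4 (by norm_num)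
    have h6 : 0 < (1 + γ j) ^ (7 / 4 : ℝ) := by positivity
    have h7 : 0 < γ j ^ (7 / 4 : ℝ) := by positivity
    rw [← mul_div_assoc, div_le_div_iff₀ h7 h6]
    calc (mz (γ j : ℂ) : ℝ) * (1 + γ j) ^ (7 / 4 : ℝ) ≤
        (mz (γ j : ℂ) : ℝ) * ((1 + 1 / γ 0) ^ (7 / 4 : ℝ) * γ j ^ (7 / 4 : ℝ)) :=
          mul_le_mul_of_nonneg_left h5 (by positivity)
      _ = _ := by ring
  · intro F hF
    have h1 := (E.hasSum_iff).2 hF.hasSum
    refine h1.prod_fiberwise fun j => ?_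
    have h2 := hasSum_fintype (fun b : Bool =>
      ((fun ρ : Y23.Zt => (Y23.mu ρ : ℝ) * F (zp ρ)) ∘ E) (j, b))
    rw [Fintype.sum_bool] at h2
    convert h2 using 1
    simp only [Function.comp]
    have e1 : ∀ b, ((E (j, b) : Y23.Zt)) = e (j, b) := fun b => rfl
    rw [e1, e1, hmu, hmu, hzp, hzp]
    have e2 : sg true * γ j = γ j := by simp [sg]
    have e3 : sg false * γ j = -γ j := by simp [sg]
    simp only [e2, e3]
    push_cast
    ring

end Pool.Agent.Q177.CD2
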